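import Mathlib
import Pool.Agent.TP975.LR.Lg3

/-!
Sup norms of the exponential sums with the Liouville function at the values of almost all polynomials: the exponent
`1 / 2 + 1 / (2 d)`.
-/

set_option autoImplicit false

namespace Pool.Agent.Results.MP_b6b996_nt.SupNormsGenericPolynomials

open Finset Polynomial

/-- the Liouville function on the integers, `lam (-m) = lam m`, `lam 0 = 0` -/
noncomputable def lam (m : ℤ) : ℝ := if m = 0 then 0 else (-1) ^ ArithmeticFunction.cardFactors m.natAbs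

/-- the value at `t` of the polynomial with the coefficients `a 0, ..., a d` -/
def value {d : ℕ} (a : Fin (d + 1) → ℤ) (t : ℤ) : ℤ := ∑ c, a c * t ^ (c : ℕ)

/-- the polynomials of degree at most `d` with coefficients in `[-H, H]` -/
noncomputable def box (d H : ℕ) : Finset (Fin (d + 1) → ℤ) := Fintype.piFinset fun _ => Icc (-(H : ℤ)) H

/-- the sum of `exp (2 π i g (n)) lam (f (n))` over `M < n ≤ M + N` -/
noncomputable def S {d : ℕ} (f : Fin (d + 1) → ℤ) (g : ℝ[X]) (M N : ℕ) : ℂ :=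
  ∑ n ∈ Ioc M (M + N), Complex.exp (2 * Real.pi * Complex.I * ((g.eval (n : ℝ) : ℝ) : ℂ)) *
    ((lam (value f (n : ℤ)) : ℝ) : ℂ)

open Classical in
/-- For almost all polynomials `f` of degree at most `d` with coefficients of size at most `H`, the sums `S f g M N` of
`exp (2 π i g (n)) lam (f (n))` over `M < n ≤ M + N` satisfy
`|S f g M N| ^ (2 d) ≤ N ^ (d + s (s + 1) / 2 - 1) (M + N) log ^ ε H` for ALL `M ≥ 0`, `N ≥ 1` with `M + N ≤ log ^ A H`
and ALL real polynomials `g` of degree at most `s`. For `M = 0` and `s = 1` this says that the maximum over all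
frequencies is at most `N ^ (1 / 2 + 1 / (2 d)) log ^ (ε / (2 d)) H`. -/
theorem result (d s A : ℕ) (hd : 1 ≤ d) (ε : ℝ) (hε : 0 < ε) :
    ∃ η : ℝ, 0 < η ∧ ∃ H₀ : ℕ, ∀ H : ℕ, H₀ ≤ H →
    (((box d H).filter (fun f => ∃ (M N : ℕ) (g : ℝ[X]), 1 ≤ N ∧ g.natDegree ≤ s ∧
      ((M + N : ℕ) : ℝ) ≤ Real.log H ^ A ∧
      (N : ℝ) ^ (d + s * (s + 1) / 2 - 1) * ((M + N : ℕ) : ℝ) * Real.log H ^ ε < ‖S f g M N‖ ^ (2 * d))).card : ℝ) ≤
      (box d H).card / Real.log H ^ η := by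
  obtain ⟨η, hη, H0, h0⟩ := Pool.Agent.TP975.LR.all_sup Pool.Agent.TP975.LR.lamI Pool.Agent.TP975.LR.winB_lamI
    Pool.Agent.TP975.LR.lamI_abs d s A hd ε hε
  refine ⟨η, hη, H0, fun H hH => ?_⟩
  obtain ⟨Bad, _, hB, hall⟩ := h0 H hH
  refine le_trans ?_ hB
  have hsub : (box d H).filter (fun f => ∃ (M N : ℕ) (g : ℝ[X]), 1 ≤ N ∧ g.natDegree ≤ s ∧
      ((M + N : ℕ) : ℝ) ≤ Real.log H ^ A ∧
      (N : ℝ) ^ (d + s * (s + 1) / 2 - 1) * ((M + N : ℕ) : ℝ) * Real.log H ^ ε < ‖S f g M N‖ ^ (2 * d)) ⊆ Bad := by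
    intro f hf
    rw [mem_filter] at hf
    obtain ⟨hf1, M, N, g, hN, hg, hX, hlt⟩ := hf
    by_contra hbad
    exact absurd (hall f hf1 hbad M N hN hX g hg) (not_le.2 hlt)
  exact_mod_cast card_le_card hsub

end Pool.Agent.Results.MP_b6b996_nt.SupNormsGenericPolynomials
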